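import Mathlib

set_option autoImplicit false

/-!
# Project SX, module FAM: many coprime pairs (Mathlib only)
-/

namespace Pool.Agent.D0H33.SX

open Finset

lemma prod2 (k a n : ℕ) : ∏ j : Fin (k + 2), (if (j : ℕ) = 0 then a else if (j : ℕ) = 1 then n else 1) =
    a * n := by
  rw [Fin.prod_univ_succ, Fin.prod_univ_succ]
  simp

/-- a solution of `b ∣ a n + 1` in `[b, 2b)` -/
lemma exists_n (a b : ℕ) (hb : 1 < b) (h : Nat.Coprime a b) :
    ∃ n, b ≤ n ∧ n < 2 * b ∧ b ∣ a * n + 1 := by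
  obtain ⟨m, -, hm⟩ := Nat.exists_mul_mod_eq_one_of_coprime h hb
  refine ⟨m * (b - 1) % b + b, by omega, by have := Nat.mod_lt (m * (b - 1)) (by omega : 0 < b); omega, ?_⟩
  have h1 : a * (m * (b - 1) % b + b) + 1 ≡ 0 [MOD b] := by
    have e1 : m * (b - 1) % b + b ≡ m * (b - 1) [MOD b] := by
      have := Nat.mod_modEq (m * (b - 1)) b
      have h2 : b ≡ 0 [MOD b] := by
        rw [Nat.modEq_zero_iff_dvd]
      simpa using this.add h2
    have e2 : a * (m * (b - 1) % b + b) ≡ a * (m * (b - 1)) [MOD b] := e1.mul_left a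
    have e3 : a * (m * (b - 1)) ≡ 1 * (b - 1) [MOD b] := by
      rw [← mul_assoc]
      apply Nat.ModEq.mul_right
      unfold Nat.ModEq
      rw [hm, Nat.mod_eq_of_lt hb]
    have e4 := (e2.trans e3).add_right 1
    have e5 : 1 * (b - 1) + 1 = b := by omega
    rw [e5] at e4
    have h2 : b ≡ 0 [MOD b] := by rw [Nat.modEq_zero_iff_dvd]
    exact e4.trans h2
  exact (Nat.modEq_zero_iff_dvd).1 h1

/-- the multiples of `d` in `(K, 2K]` -/
lemma card_mult (K d : ℕ) (hd : 1 ≤ d) :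
    (((Ioc K (2 * K)).filter (fun x => d ∣ x)).card : ℝ) ≤ (K : ℝ) / d + 1 := by
  have h1 := Nat.Ioc_filter_dvd_card_eq_div (2 * K) d
  have h2 := Nat.Ioc_filter_dvd_card_eq_div K d
  have h3 : ((Ioc 0 (2 * K)).filter (fun x => d ∣ x)) =
      ((Ioc 0 K).filter (fun x => d ∣ x)) ∪ ((Ioc K (2 * K)).filter (fun x => d ∣ x)) := by
    rw [← filter_union]
    congr 1
    ext x
    simp only [mem_union, mem_Ioc]
    omega
  have h4 : Disjoint ((Ioc 0 K).filter (fun x => d ∣ x)) ((Ioc K (2 * K)).filter (fun x => d ∣ x)) := by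
    rw [Finset.disjoint_left]
    intro x hx hy
    simp only [mem_filter, mem_Ioc] at hx hy
    omega
  have h5 := congrArg Finset.card h3
  rw [card_union_of_disjoint h4, h1, h2] at h5
  have hd0 : (0 : ℝ) < d := by exact_mod_cast hd
  have h6 : (((2 * K) / d : ℕ) : ℝ) ≤ 2 * K / d := by
    have := @Nat.cast_div_le ℝ _ _ _ (2 * K) d
    push_cast at this
    exact this
  have h7 : (K : ℝ) / d - 1 ≤ ((K / d : ℕ) : ℝ) := by
    have := Nat.lt_div_mul_add (a := K) (b := d) hd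
    have h8 : (K : ℝ) < ((K / d : ℕ) : ℝ) * d + d := by exact_mod_cast this
    rw [div_sub_one hd0.ne', div_le_iff₀ hd0]
    linarith
  have h9 : (((2 * K) / d : ℕ) : ℝ) = ((K / d : ℕ) : ℝ) +
      (((Ioc K (2 * K)).filter (fun x => d ∣ x)).card : ℝ) := by exact_mod_cast h5
  have h10 : (2 * K : ℝ) / d = K / d + K / d := by ring
  linarith

/-- `∑ 1/d² ≤ 3/4` -/
lemma sum_sq (m : ℕ) : ∑ d ∈ Icc 2 (m + 2), (1 : ℝ) / (d : ℝ) ^ 2 ≤ 3 / 4 - 1 / (m + 2) := by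
  induction m with
  | zero => norm_num
  | succ m ih =>
    rw [show m + 1 + 2 = (m + 2) + 1 by ring, Finset.sum_Icc_succ_top (by omega)]
    push_cast at ih ⊢
    have h1 : (1 : ℝ) / ((m : ℝ) + 1 + 2) ^ 2 ≤ 1 / (m + 2) - 1 / (m + 1 + 2) := by
      rw [div_sub_div _ _ (by positivity) (by positivity), div_le_div_iff₀ (by positivity) (by positivity)]
      ring_nf
      nlinarith [Nat.cast_nonneg (α := ℝ) m]
    have e : ((m : ℝ) + 2 + 1) = m + 1 + 2 := by ring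
    rw [e]
    linarith

/-- many coprime pairs -/
lemma coprime_pairs (K : ℕ) (hK : 416 ≤ K) :
    (K : ℝ) ^ 2 / 8 ≤ (((Ioc K (2 * K) ×ˢ Ioc K (2 * K)).filter
      (fun p : ℕ × ℕ => Nat.Coprime p.1 p.2)).card : ℝ) := by
  set A := Ioc K (2 * K) with hA
  have hc : (A ×ˢ A).card = K ^ 2 := by
    rw [card_product, hA, Nat.card_Ioc]
    have : 2 * K - K = K := by omega
    rw [this]
    ring
  have h1 := card_filter_add_card_filter_not (s := A ×ˢ A) (fun p : ℕ × ℕ => Nat.Coprime p.1 p.2)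
  have hsub : (A ×ˢ A).filter (fun p : ℕ × ℕ => ¬ Nat.Coprime p.1 p.2) ⊆
      (Icc 2 (2 * K)).biUnion (fun d => A.filter (fun x => d ∣ x) ×ˢ A.filter (fun x => d ∣ x)) := by
    intro p hp
    rw [mem_filter, mem_product, hA, mem_Ioc, mem_Ioc] at hp
    rw [mem_biUnion]
    have h0 : 0 < Nat.gcd p.1 p.2 := Nat.gcd_pos_of_pos_left _ (by omega)
    have h2 : Nat.gcd p.1 p.2 ≠ 1 := hp.2
    have h3 : Nat.gcd p.1 p.2 ≤ p.1 := Nat.gcd_le_left _ (by omega)
    refine ⟨Nat.gcd p.1 p.2, mem_Icc.2 ⟨by omega, by omega⟩, ?_⟩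
    rw [mem_product, mem_filter, mem_filter, hA, mem_Ioc, mem_Ioc]
    exact ⟨⟨hp.1.1, Nat.gcd_dvd_left _ _⟩, ⟨hp.1.2, Nat.gcd_dvd_right _ _⟩⟩
  have h2 : (((A ×ˢ A).filter (fun p : ℕ × ℕ => ¬ Nat.Coprime p.1 p.2)).card : ℝ) ≤
      ∑ d ∈ Icc 2 (2 * K), (13 / 12 * (K : ℝ) ^ 2 * (1 / (d : ℝ) ^ 2) + 13) := by
    have h3 := (card_le_card hsub).trans card_biUnion_le
    have h4 : (((A ×ˢ A).filter (fun p : ℕ × ℕ => ¬ Nat.Coprime p.1 p.2)).card : ℝ) ≤
        ∑ d ∈ Icc 2 (2 * K), ((A.filter (fun x => d ∣ x) ×ˢ A.filter (fun x => d ∣ x)).card : ℝ) := by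
      exact_mod_cast h3
    refine h4.trans (sum_le_sum fun d hd => ?_)
    rw [mem_Icc] at hd
    have h5 := card_mult K d (by omega)
    rw [card_product]
    push_cast
    have h6 : (0 : ℝ) ≤ ((A.filter (fun x => d ∣ x)).card : ℝ) := Nat.cast_nonneg _
    have hd0 : (0 : ℝ) < d := by exact_mod_cast (by omega : 0 < d)
    have h7 : (0 : ℝ) ≤ (K : ℝ) / d := by positivity
    have h8 : ((A.filter (fun x => d ∣ x)).card : ℝ) * ((A.filter (fun x => d ∣ x)).card : ℝ) ≤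
        ((K : ℝ) / d + 1) * ((K : ℝ) / d + 1) := mul_le_mul h5 h5 h6 (by positivity)
    have h9 : 13 / 12 * (K : ℝ) ^ 2 * (1 / (d : ℝ) ^ 2) = 13 / 12 * ((K : ℝ) / d) ^ 2 := by
      field_simp
    rw [h9]
    nlinarith [sq_nonneg ((K : ℝ) / d - 12)]
  have h3 : ∑ d ∈ Icc 2 (2 * K), (13 / 12 * (K : ℝ) ^ 2 * (1 / (d : ℝ) ^ 2) + 13) ≤
      13 / 16 * (K : ℝ) ^ 2 + 26 * K := by
    rw [sum_add_distrib, ← mul_sum, sum_const, Nat.card_Icc, nsmul_eq_mul]
    obtain ⟨m, hm⟩ : ∃ m, 2 * K = m + 2 := ⟨2 * K - 2, by omega⟩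
    have h4 := sum_sq m
    rw [← hm] at h4
    have h5 : (0 : ℝ) ≤ 1 / ((m : ℝ) + 2) := by positivity
    have h6 : ∑ d ∈ Icc 2 (2 * K), (1 : ℝ) / (d : ℝ) ^ 2 ≤ 3 / 4 := by linarith
    have h7 : (((2 * K + 1 - 2 : ℕ)) : ℝ) ≤ 2 * K := by
      have : 2 * K + 1 - 2 ≤ 2 * K := by omega
      exact_mod_cast this
    have h8 : (0 : ℝ) ≤ 13 / 12 * (K : ℝ) ^ 2 := by positivity
    nlinarith [mul_le_mul_of_nonneg_left h6 h8]
  have h4 : (K : ℝ) ^ 2 = (((A ×ˢ A).filter (fun p : ℕ × ℕ => Nat.Coprime p.1 p.2)).card : ℝ) +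
      (((A ×ˢ A).filter (fun p : ℕ × ℕ => ¬ Nat.Coprime p.1 p.2)).card : ℝ) := by
    rw [hc] at h1
    exact_mod_cast h1.symm
  have hK' : (416 : ℝ) ≤ K := by exact_mod_cast hK
  nlinarith

open Classical in
/-- the chosen `n` -/
noncomputable def nn (a b : ℕ) : ℕ :=
  if h : ∃ n, b ≤ n ∧ n < 2 * b ∧ b ∣ a * n + 1 then h.choose else 1

lemma nn_spec (a b : ℕ) (hb : 1 < b) (h : Nat.Coprime a b) :
    b ≤ nn a b ∧ nn a b < 2 * b ∧ b ∣ a * nn a b + 1 := by
  have h1 := exists_n a b hb h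
  unfold nn
  rw [dif_pos h1]
  exact h1.choose_spec

/-- the tuple of a coprime pair -/
noncomputable def tp (k : ℕ) (p : ℕ × ℕ) : Fin k ⊕ Fin k → ℕ :=
  Sum.elim (fun j => if (j : ℕ) = 0 then p.1 else if (j : ℕ) = 1 then nn p.1 p.2 else 1)
    (fun j => if (j : ℕ) = 0 then p.2 else if (j : ℕ) = 1 then (p.1 * nn p.1 p.2 + 1) / p.2 else 1)

theorem fam_core : ∀ k : ℕ, 2 ≤ k → ∃ S₀ : ℝ, 1 ≤ S₀ ∧ ∀ S : ℝ, S₀ ≤ S →
    ∃ F : Finset (Fin k ⊕ Fin k → ℕ),
    S / 32 ≤ (F.card : ℝ) ∧ (F.card : ℝ) ≤ S ∧ ∀ ν ∈ F, (∀ i, 1 ≤ ν i ∧ (ν i : ℝ) ≤ 5 * Real.sqrt S) ∧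
      (∏ j, ν (Sum.inr j)) = (∏ j, ν (Sum.inl j)) + 1 ∧
      S / 4 ≤ ((∏ j, ν (Sum.inl j) : ℕ) : ℝ) ∧ ((∏ j, ν (Sum.inl j) : ℕ) : ℝ) ≤ 5 / 2 * S := by
  classical
  intro k hk
  obtain ⟨k, rfl⟩ : ∃ k', k = k' + 2 := ⟨k - 2, by omega⟩
  refine ⟨1000000, by norm_num, fun S hS => ?_⟩
  have hS0 : (0 : ℝ) ≤ S := by linarith
  set r : ℝ := Real.sqrt S with hr
  have hrr : r ^ 2 = S := Real.sq_sqrt hS0
  have hr0 : (1000 : ℝ) ≤ r := Real.le_sqrt_of_sq_le (by norm_num; linarith)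
  set K : ℕ := ⌈r / 2⌉₊ with hKdef
  have hK1 : r / 2 ≤ K := Nat.le_ceil _
  have hK2 : (K : ℝ) ≤ r / 2 + 1 := (Nat.ceil_lt_add_one (by linarith)).le
  have hK3 : 416 ≤ K := by
    have : (416 : ℝ) ≤ K := by linarith
    exact_mod_cast this
  set P := (Ioc K (2 * K) ×ˢ Ioc K (2 * K)).filter (fun p : ℕ × ℕ => Nat.Coprime p.1 p.2) with hP
  have hinj : Function.Injective (tp (k + 2)) := by
    intro p q h
    have h1 := congrFun h (Sum.inl 0)
    have h2 := congrFun h (Sum.inr 0)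
    simp only [tp, Sum.elim_inl, Sum.elim_inr, Fin.val_zero, if_true] at h1 h2
    exact Prod.ext h1 h2
  refine ⟨P.image (tp (k + 2)), ?_, ?_, ?_⟩
  · rw [card_image_of_injective _ hinj]
    refine le_trans ?_ (coprime_pairs K hK3)
    nlinarith
  · rw [card_image_of_injective _ hinj]
    have h1 : P.card ≤ K ^ 2 := by
      refine (card_filter_le _ _).trans ?_
      rw [card_product, Nat.card_Ioc]
      have : 2 * K - K = K := by omega
      rw [this]
      exact le_of_eq (by ring)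
    have h2 : (P.card : ℝ) ≤ (K : ℝ) ^ 2 := by exact_mod_cast h1
    have h3 : (K : ℝ) ^ 2 ≤ r ^ 2 := by
      apply pow_le_pow_left₀ (Nat.cast_nonneg _)
      linarith
    linarith
  · intro ν hν
    rw [mem_image] at hν
    obtain ⟨p, hp, rfl⟩ := hν
    rw [hP, mem_filter, mem_product, mem_Ioc, mem_Ioc] at hp
    obtain ⟨⟨⟨ha1, ha2⟩, hb1, hb2⟩, hco⟩ := hp
    obtain ⟨hn1, hn2, hn3⟩ := nn_spec p.1 p.2 (by omega) hco
    set a := p.1 with ha
    set b := p.2 with hb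
    set n := nn a b with hn
    obtain ⟨m, hm⟩ := hn3
    have hmm : (a * n + 1) / b = m := by
      rw [hm]
      exact Nat.mul_div_cancel_left m (by omega)
    have hm1 : 1 ≤ m := by
      rcases Nat.eq_zero_or_pos m with h | h
      · rw [h] at hm
        omega
      · exact h
    have hm2 : m ≤ 2 * a := by
      have h1 : b * m ≤ b * (2 * a) := by
        rw [← hm]
        have h2 : a * n + a ≤ a * (2 * b) := by
          have : a * (n + 1) ≤ a * (2 * b) := Nat.mul_le_mul_left a (by omega)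
          linarith
        have h3 : 1 ≤ a := by omega
        calc a * n + 1 ≤ a * n + a := by omega
          _ ≤ a * (2 * b) := h2
          _ = b * (2 * a) := by ring
      exact Nat.le_of_mul_le_mul_left h1 (by omega)
    have hinl : ∏ j : Fin (k + 2), tp (k + 2) p (Sum.inl j) = a * n := prod2 k a n
    have hinr : ∏ j : Fin (k + 2), tp (k + 2) p (Sum.inr j) = b * m := by
      have := prod2 k b ((a * n + 1) / b)
      rw [hmm] at this
      rw [← this]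
      apply prod_congr rfl
      intro j _
      show (if (j : ℕ) = 0 then b else if (j : ℕ) = 1 then (a * n + 1) / b else 1) = _
      rw [hmm]
    rw [hinl, hinr]
    have hKr : (4 : ℝ) * K ≤ 5 * r := by linarith
    refine ⟨?_, hm.symm, ?_, ?_⟩
    · have key : ∀ x : ℕ, x ≤ 4 * K → (x : ℝ) ≤ 5 * r := fun x hx => by
        have : (x : ℝ) ≤ 4 * K := by exact_mod_cast hx
        linarith
      intro i
      rcases i with j | j
      · show 1 ≤ (if (j : ℕ) = 0 then a else if (j : ℕ) = 1 then n else 1) ∧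
          (((if (j : ℕ) = 0 then a else if (j : ℕ) = 1 then n else 1) : ℕ) : ℝ) ≤ _
        split_ifs
        · exact ⟨by omega, key _ (by omega)⟩
        · exact ⟨by omega, key _ (by omega)⟩
        · exact ⟨le_rfl, key _ (by omega)⟩
      · show 1 ≤ (if (j : ℕ) = 0 then b else if (j : ℕ) = 1 then (a * n + 1) / b else 1) ∧
          (((if (j : ℕ) = 0 then b else if (j : ℕ) = 1 then (a * n + 1) / b else 1) : ℕ) : ℝ) ≤ _
        rw [hmm]
        split_ifs
        · exact ⟨by omega, key _ (by omega)⟩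
        · exact ⟨by omega, key _ (by omega)⟩
        · exact ⟨le_rfl, key _ (by omega)⟩
    · have h1 : K * K ≤ a * n := Nat.mul_le_mul ha1.le (by omega)
      have h2 : (K : ℝ) * K ≤ ((a * n : ℕ) : ℝ) := by exact_mod_cast h1
      nlinarith
    · have h1 : a * n ≤ (2 * K) * (4 * K) := Nat.mul_le_mul ha2 (by omega)
      have h2 : ((a * n : ℕ) : ℝ) ≤ (2 * K) * (4 * K) := by exact_mod_cast h1
      have h3 : (K : ℝ) * K ≤ (r / 2 + 1) * (r / 2 + 1) :=
        mul_le_mul hK2 hK2 (Nat.cast_nonneg _) (by linarith)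
      nlinarith

end Pool.Agent.D0H33.SX
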