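import Pool.Agent.D0H82.SX.Stm
import Pool.Agent.D0H33.SX.Fam0

set_option autoImplicit false

namespace Pool.Agent.D0H33.SX

theorem t_FAM : Pool.Agent.D0H82.SX.S_FAM := fam_core

end Pool.Agent.D0H33.SX
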