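import Pool.Agent.D0H33.SX.Fam0

set_option autoImplicit false

/-!
# Project SX, module FAM2: many coprime pairs, products in a given window (Mathlib only)
-/

namespace Pool.Agent.D0H33.SX

open Finset

/-- a solution of `b ∣ a n + 1` in `[j b, (j + 1) b)` -/
lemma exists_n2 (j a b : ℕ) (hb : 1 < b) (h : Nat.Coprime a b) :
    ∃ n, j * b ≤ n ∧ n < (j + 1) * b ∧ b ∣ a * n + 1 := by
  obtain ⟨m, -, hm⟩ := Nat.exists_mul_mod_eq_one_of_coprime h hb
  have hlt := Nat.mod_lt (m * (b - 1)) (by omega : 0 < b)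
  refine ⟨m * (b - 1) % b + j * b, by omega, by rw [add_mul, one_mul]; omega, ?_⟩
  have h1 : a * (m * (b - 1) % b + j * b) + 1 ≡ 0 [MOD b] := by
    have e1 : m * (b - 1) % b + j * b ≡ m * (b - 1) [MOD b] := by
      have := Nat.mod_modEq (m * (b - 1)) b
      have h2 : j * b ≡ 0 [MOD b] := by
        rw [Nat.modEq_zero_iff_dvd]
        exact Dvd.intro_left j rfl
      simpa using this.add h2
    have e2 : a * (m * (b - 1) % b + j * b) ≡ a * (m * (b - 1)) [MOD b] := e1.mul_left a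
    have e3 : a * (m * (b - 1)) ≡ 1 * (b - 1) [MOD b] := by
      rw [← mul_assoc]
      apply Nat.ModEq.mul_right
      unfold Nat.ModEq
      rw [hm, Nat.mod_eq_of_lt hb]
    have e4 := (e2.trans e3).add_right 1
    have e5 : 1 * (b - 1) + 1 = b := by omega
    rw [e5] at e4
    have h2 : b ≡ 0 [MOD b] := by rw [Nat.modEq_zero_iff_dvd]
    exact e4.trans h2
  exact (Nat.modEq_zero_iff_dvd).1 h1

/-- the multiples of `d` in `(K, K + L]` -/
lemma card_mult2 (K L d : ℕ) (hd : 1 ≤ d) :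
    (((Ioc K (K + L)).filter (fun x => d ∣ x)).card : ℝ) ≤ (L : ℝ) / d + 1 := by
  have h1 := Nat.Ioc_filter_dvd_card_eq_div (K + L) d
  have h2 := Nat.Ioc_filter_dvd_card_eq_div K d
  have h3 : ((Ioc 0 (K + L)).filter (fun x => d ∣ x)) =
      ((Ioc 0 K).filter (fun x => d ∣ x)) ∪ ((Ioc K (K + L)).filter (fun x => d ∣ x)) := by
    rw [← filter_union]
    congr 1
    ext x
    simp only [mem_union, mem_Ioc]
    omega
  have h4 : Disjoint ((Ioc 0 K).filter (fun x => d ∣ x)) ((Ioc K (K + L)).filter (fun x => d ∣ x)) := by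
    rw [Finset.disjoint_left]
    intro x hx hy
    simp only [mem_filter, mem_Ioc] at hx hy
    omega
  have h5 := congrArg Finset.card h3
  rw [card_union_of_disjoint h4, h1, h2] at h5
  have hd0 : (0 : ℝ) < d := by exact_mod_cast hd
  have h6 : (((K + L) / d : ℕ) : ℝ) ≤ (K + L) / d := by
    have := @Nat.cast_div_le ℝ _ _ _ (K + L) d
    push_cast at this
    exact this
  have h7 : (K : ℝ) / d - 1 ≤ ((K / d : ℕ) : ℝ) := by
    have := Nat.lt_div_mul_add (a := K) (b := d) hd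
    have h8 : (K : ℝ) < ((K / d : ℕ) : ℝ) * d + d := by exact_mod_cast this
    rw [div_sub_one hd0.ne', div_le_iff₀ hd0]
    linarith
  have h9 : (((K + L) / d : ℕ) : ℝ) = ((K / d : ℕ) : ℝ) +
      (((Ioc K (K + L)).filter (fun x => d ∣ x)).card : ℝ) := by exact_mod_cast h5
  have h10 : ((K : ℝ) + L) / d = K / d + L / d := by ring
  linarith

/-- many coprime pairs -/
lemma coprime_pairs2 (K L : ℕ) (hLK : L ≤ K) (hK1 : 1 ≤ K) (hL : 416 * (K : ℝ) ≤ (L : ℝ) ^ 2) :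
    (L : ℝ) ^ 2 / 8 ≤ (((Ioc K (K + L) ×ˢ Ioc K (K + L)).filter
      (fun p : ℕ × ℕ => Nat.Coprime p.1 p.2)).card : ℝ) := by
  set A := Ioc K (K + L) with hA
  have hc : (A ×ˢ A).card = L ^ 2 := by
    rw [card_product, hA, Nat.card_Ioc]
    have : K + L - K = L := by omega
    rw [this]
    ring
  have h1 := card_filter_add_card_filter_not (s := A ×ˢ A) (fun p : ℕ × ℕ => Nat.Coprime p.1 p.2)
  have hsub : (A ×ˢ A).filter (fun p : ℕ × ℕ => ¬ Nat.Coprime p.1 p.2) ⊆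
      (Icc 2 (2 * K)).biUnion (fun d => A.filter (fun x => d ∣ x) ×ˢ A.filter (fun x => d ∣ x)) := by
    intro p hp
    rw [mem_filter, mem_product, hA, mem_Ioc, mem_Ioc] at hp
    rw [mem_biUnion]
    have h0 : 0 < Nat.gcd p.1 p.2 := Nat.gcd_pos_of_pos_left _ (by omega)
    have h2 : Nat.gcd p.1 p.2 ≠ 1 := hp.2
    have h3 : Nat.gcd p.1 p.2 ≤ p.1 := Nat.gcd_le_left _ (by omega)
    refine ⟨Nat.gcd p.1 p.2, mem_Icc.2 ⟨by omega, by omega⟩, ?_⟩
    rw [mem_product, mem_filter, mem_filter, hA, mem_Ioc, mem_Ioc]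
    exact ⟨⟨hp.1.1, Nat.gcd_dvd_left _ _⟩, ⟨hp.1.2, Nat.gcd_dvd_right _ _⟩⟩
  have h2 : (((A ×ˢ A).filter (fun p : ℕ × ℕ => ¬ Nat.Coprime p.1 p.2)).card : ℝ) ≤
      ∑ d ∈ Icc 2 (2 * K), (13 / 12 * (L : ℝ) ^ 2 * (1 / (d : ℝ) ^ 2) + 13) := by
    have h3 := (card_le_card hsub).trans card_biUnion_le
    have h4 : (((A ×ˢ A).filter (fun p : ℕ × ℕ => ¬ Nat.Coprime p.1 p.2)).card : ℝ) ≤
        ∑ d ∈ Icc 2 (2 * K), ((A.filter (fun x => d ∣ x) ×ˢ A.filter (fun x => d ∣ x)).card : ℝ) := by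
      exact_mod_cast h3
    refine h4.trans (sum_le_sum fun d hd => ?_)
    rw [mem_Icc] at hd
    have h5 := card_mult2 K L d (by omega)
    rw [card_product]
    push_cast
    have h6 : (0 : ℝ) ≤ ((A.filter (fun x => d ∣ x)).card : ℝ) := Nat.cast_nonneg _
    have hd0 : (0 : ℝ) < d := by exact_mod_cast (by omega : 0 < d)
    have h7 : (0 : ℝ) ≤ (L : ℝ) / d := by positivity
    have h8 : ((A.filter (fun x => d ∣ x)).card : ℝ) * ((A.filter (fun x => d ∣ x)).card : ℝ) ≤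
        ((L : ℝ) / d + 1) * ((L : ℝ) / d + 1) := mul_le_mul h5 h5 h6 (by positivity)
    have h9 : 13 / 12 * (L : ℝ) ^ 2 * (1 / (d : ℝ) ^ 2) = 13 / 12 * ((L : ℝ) / d) ^ 2 := by
      field_simp
    rw [h9]
    nlinarith [sq_nonneg ((L : ℝ) / d - 12)]
  have h3 : ∑ d ∈ Icc 2 (2 * K), (13 / 12 * (L : ℝ) ^ 2 * (1 / (d : ℝ) ^ 2) + 13) ≤
      13 / 16 * (L : ℝ) ^ 2 + 26 * K := by
    rw [sum_add_distrib, ← mul_sum, sum_const, Nat.card_Icc, nsmul_eq_mul]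
    obtain ⟨m, hm⟩ : ∃ m, 2 * K = m + 2 := ⟨2 * K - 2, by omega⟩
    have h4 := sum_sq m
    rw [← hm] at h4
    have h5 : (0 : ℝ) ≤ 1 / ((m : ℝ) + 2) := by positivity
    have h6 : ∑ d ∈ Icc 2 (2 * K), (1 : ℝ) / (d : ℝ) ^ 2 ≤ 3 / 4 := by linarith
    have h7 : (((2 * K + 1 - 2 : ℕ)) : ℝ) ≤ 2 * K := by
      have : 2 * K + 1 - 2 ≤ 2 * K := by omega
      exact_mod_cast this
    have h8 : (0 : ℝ) ≤ 13 / 12 * (L : ℝ) ^ 2 := by positivity
    nlinarith [mul_le_mul_of_nonneg_left h6 h8]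
  have h4 : (L : ℝ) ^ 2 = (((A ×ˢ A).filter (fun p : ℕ × ℕ => Nat.Coprime p.1 p.2)).card : ℝ) +
      (((A ×ˢ A).filter (fun p : ℕ × ℕ => ¬ Nat.Coprime p.1 p.2)).card : ℝ) := by
    rw [hc] at h1
    exact_mod_cast h1.symm
  nlinarith

open Classical in
/-- the chosen `n` -/
noncomputable def nn2 (j a b : ℕ) : ℕ :=
  if h : ∃ n, j * b ≤ n ∧ n < (j + 1) * b ∧ b ∣ a * n + 1 then h.choose else 1

lemma nn2_spec (j a b : ℕ) (hb : 1 < b) (h : Nat.Coprime a b) :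
    j * b ≤ nn2 j a b ∧ nn2 j a b < (j + 1) * b ∧ b ∣ a * nn2 j a b + 1 := by
  have h1 := exists_n2 j a b hb h
  unfold nn2
  rw [dif_pos h1]
  exact h1.choose_spec

/-- the tuple of a coprime pair -/
noncomputable def tp2 (k j : ℕ) (p : ℕ × ℕ) : Fin k ⊕ Fin k → ℕ :=
  Sum.elim (fun i => if (i : ℕ) = 0 then p.1 else if (i : ℕ) = 1 then nn2 j p.1 p.2 else 1)
    (fun i => if (i : ℕ) = 0 then p.2 else if (i : ℕ) = 1 then (p.1 * nn2 j p.1 p.2 + 1) / p.2 else 1)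

/-- a good `j` -/
lemma exists_j (x₁ x₂ : ℝ) (h : x₁ < x₂) : ∃ j : ℕ, 1 ≤ j ∧ (1 + 1 / (j : ℝ)) ^ 5 * x₁ ≤ x₂ := by
  have h1 : Filter.Tendsto (fun j : ℕ => (1 + 1 / (j : ℝ)) ^ 5 * x₁) Filter.atTop (nhds x₁) := by
    have h2 := ((tendsto_one_div_atTop_nhds_zero_nat (𝕜 := ℝ)).const_add 1).pow 5
    have h3 := h2.mul_const x₁
    simpa using h3
  have h4 := (h1.eventually (ge_mem_nhds h)).and (Filter.eventually_ge_atTop 1)
  obtain ⟨j, hj1, hj2⟩ := h4.exists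
  exact ⟨j, hj2, hj1⟩

theorem fam2_core : ∀ (k : ℕ) (x₁ x₂ : ℝ), 2 ≤ k → 0 < x₁ → x₁ < x₂ → ∃ c C S₀ : ℝ, 0 < c ∧ 1 ≤ C ∧ 1 ≤ S₀ ∧
    ∀ S : ℝ, S₀ ≤ S → ∃ F : Finset (Fin k ⊕ Fin k → ℕ), c * S ≤ (F.card : ℝ) ∧ (F.card : ℝ) ≤ C * S ∧
      ∀ ν ∈ F, (∀ i, 1 ≤ ν i ∧ (ν i : ℝ) ≤ C * Real.sqrt S) ∧ ∃ N : ℕ,
        (∏ i, ν (Sum.inl i)) = N ∧ (∏ i, ν (Sum.inr i)) = N + 1 ∧ x₁ * S ≤ (N : ℝ) ∧ (N : ℝ) ≤ x₂ * S := by
  classical
  intro k x₁ x₂ hk hx hxx
  obtain ⟨k, rfl⟩ : ∃ k', k = k' + 2 := ⟨k - 2, by omega⟩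
  obtain ⟨j, hj1, hj⟩ := exists_j x₁ x₂ hxx
  have hj0 : (1 : ℝ) ≤ j := by exact_mod_cast hj1
  have hjp : (0 : ℝ) < j := by linarith
  set y : ℝ := Real.sqrt (x₁ / j) with hy
  have hy0 : 0 ≤ y := Real.sqrt_nonneg _
  have hyy : y ^ 2 = x₁ / j := Real.sq_sqrt (by positivity)
  have hyj : (j : ℝ) * y ^ 2 = x₁ := by
    rw [hyy]
    field_simp
  have hyx : y ^ 2 ≤ x₁ := by
    rw [hyy]
    exact div_le_self hx.le hj0
  refine ⟨x₁ / (32 * (j : ℝ) ^ 3), 1 + 4 * (j + 1) * y + 4 * x₁, 1 + 1664 ^ 2 * (j : ℝ) ^ 5 / x₁, by positivity,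
    ?_, ?_, fun S hS => ?_⟩
  · have : (0 : ℝ) ≤ 4 * (j + 1) * y := by positivity
    linarith
  · have : (0 : ℝ) ≤ 1664 ^ 2 * (j : ℝ) ^ 5 / x₁ := by positivity
    linarith
  have hS1 : 1664 ^ 2 * (j : ℝ) ^ 5 / x₁ ≤ S := by linarith
  have hS0 : (0 : ℝ) ≤ S := le_trans (by positivity) hS1
  set r : ℝ := Real.sqrt S with hr
  have hr0 : 0 ≤ r := Real.sqrt_nonneg _
  have hrr : r ^ 2 = S := Real.sq_sqrt hS0
  set u : ℝ := y * r with hu
  have hu0 : 0 ≤ u := mul_nonneg hy0 hr0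
  have huu : (j : ℝ) * u ^ 2 = x₁ * S := by
    rw [hu, mul_pow, hrr, ← mul_assoc, hyj]
  have hu1 : 1664 * (j : ℝ) ^ 2 ≤ u := by
    have h1 : 1664 ^ 2 * (j : ℝ) ^ 5 ≤ x₁ * S := by
      rw [div_le_iff₀ hx] at hS1
      linarith
    rw [← huu] at h1
    have h2 : (1664 * (j : ℝ) ^ 2) ^ 2 ≤ u ^ 2 := by
      have h3 : (j : ℝ) * (1664 * (j : ℝ) ^ 2) ^ 2 ≤ j * u ^ 2 := by
        calc (j : ℝ) * (1664 * (j : ℝ) ^ 2) ^ 2 = 1664 ^ 2 * (j : ℝ) ^ 5 := by ring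
          _ ≤ _ := h1
      exact le_of_mul_le_mul_left h3 hjp
    exact le_of_sq_le_sq h2 hu0
  have hjj : (j : ℝ) ≤ (j : ℝ) ^ 2 := by nlinarith
  set K : ℕ := ⌈u⌉₊ with hKdef
  have hK1 : u ≤ K := Nat.le_ceil _
  have hK2 : (K : ℝ) ≤ u + 1 := (Nat.ceil_lt_add_one hu0).le
  have hK3 : (K : ℝ) ≤ (1 + 1 / j) * u := by
    have h1 : 1 ≤ 1 / (j : ℝ) * u := by
      rw [one_div_mul_eq_div, le_div_iff₀ hjp]
      nlinarith
    linarith
  have hK4 : (K : ℝ) ≤ 2 * u := by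
    have h1 : 1 / (j : ℝ) ≤ 1 := (div_le_one hjp).2 hj0
    nlinarith
  have hKp : 1 ≤ K := by
    have : (1 : ℝ) ≤ K := by nlinarith
    exact_mod_cast this
  set L : ℕ := K / j with hLdef
  have hLK : L ≤ K := Nat.div_le_self _ _
  have hL1 : (L : ℝ) ≤ K / j := Nat.cast_div_le
  have hL2 : (K : ℝ) / (2 * j) ≤ L := by
    have h1 := Nat.lt_div_mul_add (a := K) (b := j) hj1
    have h2 : (K : ℝ) < (L : ℝ) * j + j := by exact_mod_cast h1
    rw [div_le_iff₀ (by positivity)]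
    nlinarith
  have hL3 : 416 * (K : ℝ) ≤ (L : ℝ) ^ 2 := by
    have h1 : ((K : ℝ) / (2 * j)) ^ 2 ≤ (L : ℝ) ^ 2 := pow_le_pow_left₀ (by positivity) hL2 2
    refine le_trans ?_ h1
    rw [div_pow, le_div_iff₀ (by positivity)]
    have h2 : 1664 * (j : ℝ) ^ 2 ≤ K := hu1.trans hK1
    have h3 : (0 : ℝ) ≤ K := Nat.cast_nonneg _
    nlinarith [mul_le_mul_of_nonneg_left h2 h3]
  set P := (Ioc K (K + L) ×ˢ Ioc K (K + L)).filter (fun p : ℕ × ℕ => Nat.Coprime p.1 p.2) with hP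
  have hinj : Function.Injective (tp2 (k + 2) j) := by
    intro p q h
    have h1 := congrFun h (Sum.inl 0)
    have h2 := congrFun h (Sum.inr 0)
    simp only [tp2, Sum.elim_inl, Sum.elim_inr, Fin.val_zero, if_true] at h1 h2
    exact Prod.ext h1 h2
  refine ⟨P.image (tp2 (k + 2) j), ?_, ?_, ?_⟩
  · rw [card_image_of_injective _ hinj]
    refine le_trans ?_ (coprime_pairs2 K L hLK hKp hL3)
    have h1 : ((K : ℝ) / (2 * j)) ^ 2 ≤ (L : ℝ) ^ 2 := pow_le_pow_left₀ (by positivity) hL2 2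
    have h2 : u ^ 2 ≤ (K : ℝ) ^ 2 := pow_le_pow_left₀ hu0 hK1 2
    have h3 : x₁ / (32 * (j : ℝ) ^ 3) * S = (u / (2 * j)) ^ 2 / 8 := by
      have : x₁ / (32 * (j : ℝ) ^ 3) * S = (x₁ * S) / (32 * (j : ℝ) ^ 3) := by ring
      rw [this, ← huu]
      field_simp
      ring
    rw [h3]
    have h4 : (u / (2 * j)) ^ 2 ≤ ((K : ℝ) / (2 * j)) ^ 2 := by
      rw [div_pow, div_pow]
      exact div_le_div_of_nonneg_right h2 (by positivity)
    linarith
  · rw [card_image_of_injective _ hinj]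
    have h1 : P.card ≤ L ^ 2 := by
      refine (card_filter_le _ _).trans ?_
      rw [card_product, Nat.card_Ioc]
      have : K + L - K = L := Nat.add_sub_cancel_left K L
      rw [this]
      exact le_of_eq (by ring)
    have h2 : (P.card : ℝ) ≤ (L : ℝ) ^ 2 := by exact_mod_cast h1
    have h3 : (L : ℝ) ^ 2 ≤ (K : ℝ) ^ 2 := by
      apply pow_le_pow_left₀ (Nat.cast_nonneg _)
      exact_mod_cast hLK
    have h4 : (K : ℝ) ^ 2 ≤ (2 * u) ^ 2 := pow_le_pow_left₀ (Nat.cast_nonneg _) hK4 2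
    have h5 : u ^ 2 ≤ x₁ * S := by
      rw [← huu]
      nlinarith [sq_nonneg u]
    have h6 : (0 : ℝ) ≤ (1 + 4 * (j + 1) * y) * S := by positivity
    nlinarith
  · intro ν hν
    rw [mem_image] at hν
    obtain ⟨p, hp, rfl⟩ := hν
    rw [hP, mem_filter, mem_product, mem_Ioc, mem_Ioc] at hp
    obtain ⟨⟨⟨ha1, ha2⟩, hb1, hb2⟩, hco⟩ := hp
    obtain ⟨hn1, hn2, hn3⟩ := nn2_spec j p.1 p.2 (by omega) hco
    set a := p.1 with ha
    set b := p.2 with hb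
    set n := nn2 j a b with hn
    obtain ⟨m, hm⟩ := hn3
    have hmm : (a * n + 1) / b = m := by
      rw [hm]
      exact Nat.mul_div_cancel_left m (by omega)
    have hm1 : 1 ≤ m := by
      rcases Nat.eq_zero_or_pos m with h | h
      · rw [h] at hm
        omega
      · exact h
    have hm2 : m ≤ (j + 1) * a := by
      have h1 : b * m ≤ b * ((j + 1) * a) := by
        rw [← hm]
        have h2 : a * n + a ≤ a * ((j + 1) * b) := by
          have : a * (n + 1) ≤ a * ((j + 1) * b) := Nat.mul_le_mul_left a (by omega)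
          linarith
        have h3 : 1 ≤ a := by omega
        calc a * n + 1 ≤ a * n + a := by omega
          _ ≤ a * ((j + 1) * b) := h2
          _ = b * ((j + 1) * a) := by ring
      exact Nat.le_of_mul_le_mul_left h1 (by omega)
    have hinl : ∏ i : Fin (k + 2), tp2 (k + 2) j p (Sum.inl i) = a * n := prod2 k a n
    have hinr : ∏ i : Fin (k + 2), tp2 (k + 2) j p (Sum.inr i) = b * m := by
      have := prod2 k b ((a * n + 1) / b)
      rw [hmm] at this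
      rw [← this]
      apply prod_congr rfl
      intro i _
      show (if (i : ℕ) = 0 then b else if (i : ℕ) = 1 then (a * n + 1) / b else 1) = _
      rw [hmm]
    have haR : (a : ℝ) ≤ 2 * K := by
      have : a ≤ 2 * K := by omega
      exact_mod_cast this
    have hbR : (b : ℝ) ≤ 2 * K := by
      have : b ≤ 2 * K := by omega
      exact_mod_cast this
    have hKC : 2 * ((j : ℝ) + 1) * K ≤ (1 + 4 * (j + 1) * y + 4 * x₁) * r := by
      have h1 : 2 * ((j : ℝ) + 1) * K ≤ 2 * ((j : ℝ) + 1) * (2 * u) :=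
        mul_le_mul_of_nonneg_left hK4 (by positivity)
      have h2 : 2 * ((j : ℝ) + 1) * (2 * u) = 4 * (j + 1) * y * r := by
        rw [hu]
        ring
      have h3 : 0 ≤ (1 + 4 * x₁) * r := by positivity
      nlinarith
    have hjb : 1 ≤ j * b := by
      have : 1 * 1 ≤ j * b := Nat.mul_le_mul hj1 (by omega)
      simpa using this
    refine ⟨?_, a * n, hinl, by rw [hinr, hm], ?_, ?_⟩
    · have key : ∀ x : ℕ, (x : ℝ) ≤ (j + 1) * (2 * K) → (x : ℝ) ≤ (1 + 4 * (j + 1) * y + 4 * x₁) * r := fun x hx => by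
        nlinarith
      have k1 : ∀ x : ℕ, x ≤ 2 * K → (x : ℝ) ≤ (j + 1) * (2 * K) := fun x hx => by
        have h1 : (x : ℝ) ≤ 2 * K := by exact_mod_cast hx
        have h2 : (0 : ℝ) ≤ j * (2 * K) := by positivity
        nlinarith
      have k2 : ∀ x z : ℕ, x ≤ (j + 1) * z → z ≤ 2 * K → (x : ℝ) ≤ (j + 1) * (2 * K) := fun x z hx hz => by
        have h1 : (x : ℝ) ≤ (j + 1) * z := by exact_mod_cast hx
        have h2 : (z : ℝ) ≤ 2 * K := by exact_mod_cast hz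
        have h3 : ((j : ℝ) + 1) * z ≤ (j + 1) * (2 * K) := mul_le_mul_of_nonneg_left h2 (by positivity)
        linarith
      intro i
      rcases i with i | i
      · show 1 ≤ (if (i : ℕ) = 0 then a else if (i : ℕ) = 1 then n else 1) ∧
          (((if (i : ℕ) = 0 then a else if (i : ℕ) = 1 then n else 1) : ℕ) : ℝ) ≤ _
        split_ifs
        · exact ⟨by omega, key _ (k1 _ (by omega))⟩
        · exact ⟨by omega, key _ (k2 _ b (by omega) (by omega))⟩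
        · exact ⟨le_rfl, key _ (k1 _ (by omega))⟩
      · show 1 ≤ (if (i : ℕ) = 0 then b else if (i : ℕ) = 1 then (a * n + 1) / b else 1) ∧
          (((if (i : ℕ) = 0 then b else if (i : ℕ) = 1 then (a * n + 1) / b else 1) : ℕ) : ℝ) ≤ _
        rw [hmm]
        split_ifs
        · exact ⟨by omega, key _ (k1 _ (by omega))⟩
        · exact ⟨by omega, key _ (k2 _ a hm2 (by omega))⟩
        · exact ⟨le_rfl, key _ (k1 _ (by omega))⟩
    · have h1 : K * (j * K) ≤ a * n := Nat.mul_le_mul ha1.le (le_trans (Nat.mul_le_mul_left j hb1.le) hn1)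
      have h2 : (K : ℝ) * (j * K) ≤ ((a * n : ℕ) : ℝ) := by exact_mod_cast h1
      have h3 : u ^ 2 ≤ (K : ℝ) ^ 2 := pow_le_pow_left₀ hu0 hK1 2
      have h4 : (j : ℝ) * u ^ 2 ≤ j * (K : ℝ) ^ 2 := mul_le_mul_of_nonneg_left h3 hjp.le
      nlinarith
    · have h1 : a * n ≤ (K + L) * ((j + 1) * (K + L)) :=
        Nat.mul_le_mul ha2 (hn2.le.trans (Nat.mul_le_mul_left (j + 1) hb2))
      have h2 : ((a * n : ℕ) : ℝ) ≤ ((K : ℝ) + L) * ((j + 1) * (K + L)) := by exact_mod_cast h1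
      have h3 : (K : ℝ) + L ≤ (1 + 1 / j) * K := by
        have : (1 + 1 / (j : ℝ)) * K = K + K / j := by ring
        rw [this]
        linarith
      have h4 : (K : ℝ) + L ≤ (1 + 1 / j) ^ 2 * u := by
        have h5 : (1 + 1 / (j : ℝ)) * K ≤ (1 + 1 / j) * ((1 + 1 / j) * u) :=
          mul_le_mul_of_nonneg_left hK3 (by positivity)
        calc (K : ℝ) + L ≤ (1 + 1 / j) * K := h3
          _ ≤ (1 + 1 / j) * ((1 + 1 / j) * u) := h5
          _ = _ := by ring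
      have h6 : ((K : ℝ) + L) ^ 2 ≤ ((1 + 1 / j) ^ 2 * u) ^ 2 := pow_le_pow_left₀ (by positivity) h4 2
      have h7 : ((j : ℝ) + 1) * ((K : ℝ) + L) ^ 2 ≤ (j + 1) * ((1 + 1 / j) ^ 2 * u) ^ 2 :=
        mul_le_mul_of_nonneg_left h6 (by positivity)
      have h8 : ((j : ℝ) + 1) * ((1 + 1 / j) ^ 2 * u) ^ 2 = (1 + 1 / j) ^ 5 * (j * u ^ 2) := by
        field_simp
      rw [h8, huu] at h7
      have h9 : (1 + 1 / (j : ℝ)) ^ 5 * (x₁ * S) ≤ x₂ * S := by
        rw [← mul_assoc]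
        exact mul_le_mul_of_nonneg_right hj hS0
      nlinarith

end Pool.Agent.D0H33.SX
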