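import Pool.Agent.D0H82.SX.StmW
import Pool.Agent.D0H33.SX.Fam20

set_option autoImplicit false

namespace Pool.Agent.D0H33.SX

open Finset

theorem t_FAM2 : Pool.Agent.D0H82.SX.S_FAM2 := by
  classical
  intro k s x₁ x₂ hk hx hxx
  obtain ⟨c, C, S₀, hc, hC, hS₀, h⟩ := fam2_core k x₁ x₂ hk hx hxx
  refine ⟨c, C, S₀, hc, hC, hS₀, fun S hS => ?_⟩
  obtain ⟨F, h1, h2, h3⟩ := h S hS
  cases s with
  | true =>
    refine ⟨F, h1, h2, fun ν hν => ⟨(h3 ν hν).1, ?_⟩⟩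
    obtain ⟨N, e1, e2, e3, e4⟩ := (h3 ν hν).2
    exact ⟨N, ⟨fun _ => ⟨e1, e2⟩, fun h => by simp at h⟩, e3, e4⟩
  | false =>
    have hinj : Function.Injective (fun ν : Fin k ⊕ Fin k → ℕ => fun i => ν (Sum.swap i)) := by
      intro ν μ h
      funext i
      have h5 := congrFun h (Sum.swap i)
      simpa using h5
    refine ⟨F.image (fun ν : Fin k ⊕ Fin k → ℕ => fun i => ν (Sum.swap i)), ?_, ?_, fun ν hν => ?_⟩
    · rw [card_image_of_injective _ hinj]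
      exact h1
    · rw [card_image_of_injective _ hinj]
      exact h2
    · rw [mem_image] at hν
      obtain ⟨μ, hμ, rfl⟩ := hν
      obtain ⟨N, e1, e2, e3, e4⟩ := (h3 μ hμ).2
      exact ⟨fun i => (h3 μ hμ).1 (Sum.swap i), N, ⟨fun h => by simp at h, fun _ => ⟨e1, e2⟩⟩, e3, e4⟩

end Pool.Agent.D0H33.SX
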