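import Mathlib

set_option autoImplicit false

/-!
# Project SX, module GV: the analytic core (Mathlib only)
-/

namespace Pool.Agent.D0H33.SX

open Complex MeasureTheory intervalIntegral

/-- the integral of `e^(iθt)` -/
lemma int_exp (θ a b : ℝ) (hθ : θ ≠ 0) :
    (∫ t in a..b, Complex.exp (I * (t : ℂ) * (θ : ℝ))) =
      (Complex.exp (I * (b : ℂ) * (θ : ℝ)) - Complex.exp (I * (a : ℂ) * (θ : ℝ))) / (I * θ) := by
  have hne : (I * (θ : ℂ)) ≠ 0 := mul_ne_zero I_ne_zero (by exact_mod_cast hθ)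
  have h := integral_exp_mul_complex (a := a) (b := b) (c := I * (θ : ℂ)) hne
  have e : ∀ t : ℝ, Complex.exp (I * (t : ℂ) * (θ : ℝ)) = Complex.exp (I * (θ : ℂ) * (t : ℂ)) := by
    intro t
    congr 1
    ring
  simp_rw [e]
  exact h

/-- the difference of two consecutive intervals -/
lemma int_diff (θ S : ℝ) (hθ : θ ≠ 0) :
    ‖(∫ t in (0:ℝ)..S, Complex.exp (I * (t : ℂ) * (θ : ℝ))) -
      ∫ t in S..(2 * S), Complex.exp (I * (t : ℂ) * (θ : ℝ))‖ =
      4 * Real.sin (θ * S / 2) ^ 2 / |θ| := by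
  rw [int_exp θ 0 S hθ, int_exp θ S (2 * S) hθ]
  have e1 : (Complex.exp (I * ((S : ℝ) : ℂ) * (θ : ℝ)) - Complex.exp (I * ((0 : ℝ) : ℂ) * (θ : ℝ))) / (I * θ) -
      (Complex.exp (I * ((2 * S : ℝ) : ℂ) * (θ : ℝ)) - Complex.exp (I * (S : ℂ) * (θ : ℝ))) / (I * θ) =
      -((Complex.exp (I * ((S : ℝ) : ℂ) * (θ : ℝ)) - 1) ^ 2 / (I * θ)) := by
    have h2 : Complex.exp (I * ((2 * S : ℝ) : ℂ) * (θ : ℝ)) =
        Complex.exp (I * (S : ℂ) * (θ : ℝ)) ^ 2 := by
      rw [← Complex.exp_nat_mul]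
      congr 1
      push_cast
      ring
    rw [h2]
    simp only [ofReal_zero, mul_zero, zero_mul, Complex.exp_zero]
    ring
  rw [e1, norm_neg, norm_div, norm_pow, norm_mul, Complex.norm_I, one_mul]
  have e2 : ‖(θ : ℂ)‖ = |θ| := by rw [Complex.norm_real, Real.norm_eq_abs]
  rw [e2]
  congr 1
  have e3 : Complex.exp (I * ((S : ℝ) : ℂ) * (θ : ℝ)) = Complex.exp (((θ * S : ℝ) : ℂ) * I) := by
    congr 1
    push_cast
    ring
  rw [e3]
  have e4 : ‖Complex.exp (((θ * S : ℝ) : ℂ) * I) - 1‖ ^ 2 = 4 * Real.sin (θ * S / 2) ^ 2 := by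
    rw [← Complex.normSq_eq_norm_sq, Complex.exp_mul_I, Complex.normSq_apply]
    simp only [add_re, sub_re, mul_re, I_re, mul_zero, I_im, mul_one, sub_self, add_zero, one_re,
      add_im, sub_im, mul_im, one_im, sub_zero, Complex.cos_ofReal_re, Complex.sin_ofReal_re,
      Complex.sin_ofReal_im, Complex.cos_ofReal_im, zero_add]
    have h1 : Real.cos (θ * S) = 1 - 2 * Real.sin (θ * S / 2) ^ 2 := by
      have := Real.cos_two_mul (θ * S / 2)
      have h2 := Real.sin_sq_add_cos_sq (θ * S / 2)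
      rw [show 2 * (θ * S / 2) = θ * S by ring] at this
      nlinarith
    have h3 := Real.sin_sq_add_cos_sq (θ * S)
    nlinarith
  exact e4

/-- `log (1 + 1/N)` -/
lemma log_bounds (N : ℝ) (hN : 0 < N) :
    1 / (N + 1) ≤ Real.log (N + 1) - Real.log N ∧ Real.log (N + 1) - Real.log N ≤ 1 / N := by
  have e : Real.log (N + 1) - Real.log N = Real.log (1 + 1 / N) := by
    rw [← Real.log_div (by positivity) hN.ne']
    congr 1
    field_simp
  constructor
  · rw [e]
    have h := Real.one_sub_inv_le_log_of_pos (x := 1 + 1 / N) (by positivity)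
    have h2 : 1 - (1 + 1 / N)⁻¹ = 1 / (N + 1) := by
      field_simp
      ring
    linarith
  · rw [e]
    have h := Real.log_le_sub_one_of_pos (x := 1 + 1 / N) (by positivity)
    linarith

/-- the sine between `0.19` and `2` -/
lemma sin_sq_ge (x : ℝ) (h1 : 19 / 100 ≤ x) (h2 : x ≤ 2) : 3 / 100 ≤ Real.sin x ^ 2 := by
  have hpi : 3.14 < Real.pi := Real.pi_gt_d2
  have hs : 18 / 100 ≤ Real.sin x := by
    rcases le_total x (Real.pi / 2) with h | h
    · have h3 : Real.sin (19 / 100) ≤ Real.sin x :=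
        Real.sin_le_sin_of_le_of_le_pi_div_two (by linarith) h h1
      have h4 := Real.sin_gt_sub_cube (x := 19 / 100) (by norm_num)
      norm_num at h4
      linarith
    · rw [← Real.sin_pi_sub]
      have h5 : Real.sin (19 / 100) ≤ Real.sin (Real.pi - x) :=
        Real.sin_le_sin_of_le_of_le_pi_div_two (by linarith) (by linarith) (by linarith)
      have h4 := Real.sin_gt_sub_cube (x := 19 / 100) (by norm_num)
      norm_num at h4
      linarith
  nlinarith

/-- the size of the coefficient -/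
lemma gv_core (S N : ℝ) (hS : 100 ≤ S) (h1 : S / 4 ≤ N) (h2 : N ≤ 5 / 2 * S) :
    (1 : ℝ) / 100 ≤ (N * (N + 1)) ^ (-(1 / 2) : ℝ) *
      ‖(∫ t in (0:ℝ)..S, Complex.exp (I * (t : ℂ) * ((Real.log (N + 1) - Real.log N : ℝ)))) -
        ∫ t in S..(2 * S), Complex.exp (I * (t : ℂ) * ((Real.log (N + 1) - Real.log N : ℝ)))‖ ∧
    (N * (N + 1)) ^ (-(1 / 2) : ℝ) *
      ‖(∫ t in (0:ℝ)..S, Complex.exp (I * (t : ℂ) * ((Real.log (N + 1) - Real.log N : ℝ)))) -
        ∫ t in S..(2 * S), Complex.exp (I * (t : ℂ) * ((Real.log (N + 1) - Real.log N : ℝ)))‖ ≤ 8 ∧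
    S * (N * (N + 1)) ^ (-(1 / 2) : ℝ) ≤ 4 := by
  have hN : 0 < N := by linarith
  obtain ⟨hl1, hl2⟩ := log_bounds N hN
  set θ : ℝ := Real.log (N + 1) - Real.log N with hθ
  have hθ0 : 0 < θ := lt_of_lt_of_le (by positivity) hl1
  rw [int_diff θ S hθ0.ne', abs_of_pos hθ0]
  have hw : (N * (N + 1)) ^ (-(1 / 2) : ℝ) = 1 / Real.sqrt (N * (N + 1)) := by
    rw [Real.rpow_neg (by positivity), ← Real.sqrt_eq_rpow, one_div]
  rw [hw]
  have hsq1 : N ≤ Real.sqrt (N * (N + 1)) := Real.le_sqrt_of_sq_le (by nlinarith)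
  have hsq2 : Real.sqrt (N * (N + 1)) ≤ N + 1 := by
    rw [Real.sqrt_le_left (by linarith)]
    nlinarith
  have hsq0 : 0 < Real.sqrt (N * (N + 1)) := by linarith
  have hx1 : 19 / 100 ≤ θ * S / 2 := by
    have h3 : S / (N + 1) ≤ θ * S := by
      have := mul_le_mul_of_nonneg_right hl1 (by linarith : (0 : ℝ) ≤ S)
      calc S / (N + 1) = 1 / (N + 1) * S := by ring
        _ ≤ _ := this
    have h4 : 38 / 100 ≤ S / (N + 1) := by
      rw [le_div_iff₀ (by linarith)]
      nlinarith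
    linarith
  have hx2 : θ * S / 2 ≤ 2 := by
    have h3 : θ * S ≤ 1 / N * S := mul_le_mul_of_nonneg_right hl2 (by linarith)
    have h4 : 1 / N * S ≤ 4 := by
      rw [one_div, inv_mul_le_iff₀ hN]
      linarith
    linarith
  have hs := sin_sq_ge _ hx1 hx2
  have hs1 : Real.sin (θ * S / 2) ^ 2 ≤ 1 := Real.sin_sq_le_one _
  have hs2 : Real.sin (θ * S / 2) ^ 2 ≤ (θ * S / 2) ^ 2 := by
    have h5 := Real.sin_le (x := θ * S / 2) (by linarith)
    have h6 : 0 ≤ Real.sin (θ * S / 2) :=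
      Real.sin_nonneg_of_nonneg_of_le_pi (by linarith) (by linarith [Real.pi_gt_three])
    exact pow_le_pow_left₀ h6 h5 2
  refine ⟨?_, ?_, ?_⟩
  · -- lower bound
    have h6 : 4 * (3 / 100) / (1 / N) ≤ 4 * Real.sin (θ * S / 2) ^ 2 / θ := by
      apply div_le_div₀ (by positivity) (by linarith) hθ0 hl2
    have h7 : 1 / (N + 1) ≤ 1 / Real.sqrt (N * (N + 1)) := one_div_le_one_div_of_le hsq0 hsq2
    calc (1 : ℝ) / 100 ≤ 1 / (N + 1) * (4 * (3 / 100) / (1 / N)) := by
          rw [div_div_eq_mul_div, div_one, one_div_mul_eq_div, le_div_iff₀ (by linarith)]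
          nlinarith
      _ ≤ 1 / Real.sqrt (N * (N + 1)) * (4 * Real.sin (θ * S / 2) ^ 2 / θ) :=
          mul_le_mul h7 h6 (by positivity) (by positivity)
  · -- upper bound
    have h6 : 4 * Real.sin (θ * S / 2) ^ 2 / θ ≤ 2 * S := by
      rw [div_le_iff₀ hθ0]
      have h8 : Real.sin (θ * S / 2) ^ 2 ≤ θ * S / 2 := by
        rcases le_total (θ * S / 2) 1 with h | h
        · nlinarith
        · linarith
      linarith
    have h7 : 1 / Real.sqrt (N * (N + 1)) ≤ 1 / N := one_div_le_one_div_of_le hN hsq1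
    calc 1 / Real.sqrt (N * (N + 1)) * (4 * Real.sin (θ * S / 2) ^ 2 / θ) ≤ 1 / N * (2 * S) :=
          mul_le_mul h7 h6 (by positivity) (by positivity)
      _ ≤ 8 := by
          rw [one_div, inv_mul_le_iff₀ hN]
          linarith
  · have h7 : 1 / Real.sqrt (N * (N + 1)) ≤ 1 / N := one_div_le_one_div_of_le hN hsq1
    calc S * (1 / Real.sqrt (N * (N + 1))) ≤ S * (1 / N) :=
          mul_le_mul_of_nonneg_left h7 (by linarith)
      _ ≤ 4 := by
          rw [mul_one_div, div_le_iff₀ hN]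
          linarith

end Pool.Agent.D0H33.SX
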