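import Pool.Agent.D0H82.SX.Stm
import Pool.Agent.D0H33.SX.Gv0

set_option autoImplicit false

namespace Pool.Agent.D0H33.SX

open Complex MeasureTheory Pool.Agent.TH612.CF Pool.Agent.TH612.GS Pool.Agent.D0H82.SX

/-- the frequency of a tuple with `∏ inr = ∏ inl + 1` -/
lemma thv_eq {k : ℕ} (ν : Fin k ⊕ Fin k → ℕ) (h1 : ∀ i, 1 ≤ ν i)
    (h : (∏ j, ν (Sum.inr j)) = (∏ j, ν (Sum.inl j)) + 1) :
    thv ν = Real.log (((∏ j, ν (Sum.inl j) : ℕ) : ℝ) + 1) - Real.log ((∏ j, ν (Sum.inl j) : ℕ) : ℝ) := by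
  have h2 : (((∏ j, ν (Sum.inl j) : ℕ) : ℝ) + 1) = ((∏ j, ν (Sum.inr j) : ℕ) : ℝ) := by
    rw [h]
    push_cast
    ring
  rw [h2]
  unfold thv
  push_cast
  rw [Real.log_prod (fun j _ => by have := h1 (Sum.inr j); positivity),
    Real.log_prod (fun j _ => by have := h1 (Sum.inl j); positivity)]

/-- the weight of such a tuple -/
lemma wt_eq {k : ℕ} (ν : Fin k ⊕ Fin k → ℕ)
    (h : (∏ j, ν (Sum.inr j)) = (∏ j, ν (Sum.inl j)) + 1) :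
    wt ν = (((∏ j, ν (Sum.inl j) : ℕ) : ℝ) * (((∏ j, ν (Sum.inl j) : ℕ) : ℝ) + 1)) ^ (-(1 / 2) : ℝ) := by
  have h2 : (((∏ j, ν (Sum.inl j) : ℕ) : ℝ) + 1) = ((∏ j, ν (Sum.inr j) : ℕ) : ℝ) := by
    rw [h]
    push_cast
    ring
  rw [h2]
  unfold wt
  rw [Fintype.prod_sum_type]
  push_cast
  rfl

theorem t_GV : S_GV := by
  refine ⟨1 / 100, 100, by norm_num, by norm_num, fun k S ν hS h1 h h3 h4 => ?_⟩
  have e1 := thv_eq ν h1 h
  have e2 := wt_eq ν h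
  have hc := gv_core S ((∏ j, ν (Sum.inl j) : ℕ) : ℝ) hS h3 h4
  have hw : 0 ≤ wt ν := by
    rw [e2]
    positivity
  have hn : ‖gv S ν‖ = wt ν *
      ‖(∫ t in (0:ℝ)..S, Complex.exp (I * (t : ℂ) * (thv ν : ℝ))) -
        ∫ t in S..(2 * S), Complex.exp (I * (t : ℂ) * (thv ν : ℝ))‖ := by
    unfold gv
    rw [norm_mul, Complex.norm_real, Real.norm_of_nonneg hw]
  rw [hn, e1, e2]
  exact hc

end Pool.Agent.D0H33.SX
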